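import Pool.Agent.N101.CB.Van

set_option autoImplicit false

/-! # The holomorphy conjecture for twisted topological zeta functions: vanishing for cubic polynomials

In the definition of `Z^(e)_top` of the problem there is no term for `I = ∅`. So `Z^(e)_top` is a rational
function of negative degree, or zero, and it is a polynomial if and only if it is identically zero: the
holomorphy conjecture is a vanishing statement. We show this for all twisted topological zeta functions
of the kind used here (first part), and that the conjecture for all polynomials and all `e` is equivalent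
to the vanishing of `Z^(e)_top` for cubic polynomials of the form `q_0(x) + ∑_k t_k q_k(x)` with polynomials
`q_0, q_k` of degree at most two, all of whose monomials are squarefree (`Cub F`).

The hypothesis on the monodromy. By the theorem of Malgrange and Kashiwara the eigenvalues of the monodromy
of `f` at the points of `f⁻¹(0)` are the `exp(2 π i α)`, `α` a root of the Bernstein-Sato polynomial `b_f`; the
`α` are rational numbers, and the order of `exp(2 π i α)` is the denominator of `α`. So no eigenvalue has an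
order divisible by `e` if and only if there is a polynomial `b` without roots of denominator divisible by
`e` which satisfies a functional equation of `f` (`NoOrder`).

Twisted zeta functions. For `c ≥ 1` let `Z_(c)(T) = ∑_{N ≥ 1} [Y_N^(c)] 𝕃 ^ (-n N) T ^ N`, where
`Y_N^(c)` is the variety of the pairs `(ψ, w)`, `ψ` an `N`-jet, `w ≠ 0`, `f(ψ) = w ^ c t ^ N mod t ^ (N + 1)`.
On an embedded resolution `Z_(c)(T) = ∑_{∅ ≠ I} [E_I^(g)] ∏_{i ∈ I} F_(N_i, ν_i)`,
`F_(N, ν) = (𝕃 - 1) 𝕃 ^ (-ν) T ^ N / (1 - 𝕃 ^ (-ν) T ^ N)`, where `g = gcd(c, m_I)` and `E_I^(g)` is an étale covering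
of degree `g` of `E_I°`. The specialisation `[V] ↦ χ(V)`, `F_(N, ν) ↦ 1 / (N s + ν)` and Möbius inversion give
`φ(e) Z^(e)_top(s)` for `∑_{c ∣ e} μ(e / c) Z_(c)(T)` (`Mte f e`). This is used as definition
(`IsTwTopZeta`).

The step to cubic polynomials. For `F = f + t w` (or its image `f + (t + v(x)) (w - u(x))` by an
automorphism) and `e ≥ 2` one has `Z^(e)_F(s) = Z^(e)_f(s + 1)`, and the denominators of the roots of the
b-functions do not change. -/

namespace Pool.Agent.Results.MP_ed311f_ag.VanishingForCubics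

open MvPolynomial Pool.Agent.W428.MOT Pool.Agent.N101.CB
open Pool.Agent.H628R4.TP (IsBFunction)

/-- `R` is a twisted topological zeta function `Z^(e)_top` of `f`, for the ring homomorphism
`χ : 𝓜 → ℂ` with `χ(𝕃) = 1`, for instance the Euler characteristic: the motivic zeta function
`Mte f e = ∑_{c ∣ e} μ(e / c) ∑_{N ≥ 1} [{(ψ, w) : w ≠ 0, f(ψ) = w ^ c t ^ N}] 𝕃 ^ (-n N) T ^ N` is a
polynomial `Q` in the `F_(N, ν) = (𝕃 - 1) 𝕃 ^ (-ν) T ^ N / (1 - 𝕃 ^ (-ν) T ^ N)`, `N, ν ≥ 1`, with coefficients in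
`𝓜`, and `φ(e) R = (χ Q)(1 / (N s + ν))`. -/
def IsTwTopZeta (χ : MK ℂ →+* ℂ) {n : ℕ} (f : MvPolynomial (Fin n) ℂ) (e : ℕ)
    (R : RatFunc ℂ) : Prop :=
  IsTop χ (Mte f e) ((Nat.totient e : RatFunc ℂ) * R)

/-- No monodromy eigenvalue of `f` has order divisible by `e`: there is a `b` with a functional equation
`b(s) f ^ s = P(s) f ^ (s + 1)` (for instance `b_f`) such that no root of `b` is a rational number whose
denominator is divisible by `e`. -/
def NoOrder (e : ℕ) {n : ℕ} (f : MvPolynomial (Fin n) ℂ) : Prop :=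
  ∃ b : Polynomial ℂ, IsBFunction f b ∧ ∀ α : ℚ, b.eval (α : ℂ) = 0 → ¬ e ∣ α.den

/-- Q1 for `f` and `e`. -/
def Q1 (χ : MK ℂ →+* ℂ) (e : ℕ) {n : ℕ} (f : MvPolynomial (Fin n) ℂ) : Prop :=
  NoOrder e f → ∀ R : RatFunc ℂ, IsTwTopZeta χ f e R →
    ∃ p : Polynomial ℂ, R = algebraMap (Polynomial ℂ) (RatFunc ℂ) p

/-- Vanishing of the twisted zeta function. -/
def Vanishing (χ : MK ℂ →+* ℂ) (e : ℕ) {n : ℕ} (f : MvPolynomial (Fin n) ℂ) : Prop :=
  NoOrder e f → ∀ R : RatFunc ℂ, IsTwTopZeta χ f e R → R = 0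

section
variable {χ : MK ℂ →+* ℂ} {n m κ : ℕ} {f : MvPolynomial (Fin n) ℂ} {F : MvPolynomial (Fin m) ℂ}

theorem noOrder_of (hf : f.totalDegree ≠ 0) (h : TW.RT f F κ) {e : ℕ} (he : 2 ≤ e)
    (hn : NoOrder e f) : NoOrder e F := by
  obtain ⟨b, hb, hα⟩ := hn
  obtain ⟨h1, h2⟩ := h.rl.b hf b hb
  obtain ⟨c, hc⟩ := exists_factor' h1
  refine ⟨_, h2 c hc, fun α hz hdvd => ?_⟩
  rw [Polynomial.eval_mul, Polynomial.eval_comp] at hz
  rcases mul_eq_zero.1 hz with h3 | h3
  · rw [Polynomial.eval_add, Polynomial.eval_X, Polynomial.eval_one] at h3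
    have h4 : α = -1 := by
      have h5 : α + 1 = 0 := by exact_mod_cast h3
      linarith
    rw [h4] at hdvd
    have h6 : ((-1 : ℚ)).den = 1 := rfl
    rw [h6] at hdvd
    have := Nat.le_of_dvd one_pos hdvd
    omega
  · refine hα (α + κ) ?_ ?_
    · have h4 : (Polynomial.X + Polynomial.C (κ : ℂ)).eval (α : ℂ) = ((α + κ : ℚ) : ℂ) := by
        rw [Polynomial.eval_add, Polynomial.eval_X, Polynomial.eval_C]
        push_cast
        rfl
      rw [h4] at h3
      rw [hc, Polynomial.eval_mul, h3, mul_zero]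
    · have h5 : (α + (κ : ℚ)).den = α.den := Rat.add_natCast_den α κ
      rwa [h5]

theorem polynomial_iff {e : ℕ} (he : 1 ≤ e) {R : RatFunc ℂ} (hR : IsTwTopZeta χ f e R) :
    (∃ p : Polynomial ℂ, R = algebraMap (Polynomial ℂ) (RatFunc ℂ) p) ↔ R = 0 := by
  constructor
  · rintro ⟨p, rfl⟩
    have h1 : ((Nat.totient e : RatFunc ℂ)) ≠ 0 := by
      have := Nat.totient_pos.2 (show 0 < e by omega)
      exact_mod_cast this.ne'
    have h2 := (prp_tw hR).eq_zero (p := (Nat.totient e : Polynomial ℂ) * p) (by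
      rw [map_mul, map_natCast])
    exact (mul_eq_zero.1 h2).resolve_left h1
  · rintro rfl
    exact ⟨0, (map_zero _).symm⟩

theorem vanishing_iff {e : ℕ} (he : 1 ≤ e) : Q1 χ e f ↔ Vanishing χ e f :=
  ⟨fun h hn R hR => (polynomial_iff he hR).1 (h hn R hR),
    fun h hn R hR => (polynomial_iff he hR).2 (h hn R hR)⟩

theorem vanishing_of (hχ : χ ((Lu ℂ : (MK ℂ)ˣ) : MK ℂ) = 1) (hf : f.totalDegree ≠ 0)
    (h : TW.RT f F κ) {e : ℕ} (he : 1 ≤ e) (hF : Vanishing χ e F) : Vanishing χ e f := by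
  intro hn R hR
  rcases Nat.eq_or_lt_of_le he with rfl | he'
  · exfalso
    obtain ⟨b, hb, hα⟩ := hn
    refine hα (-1) ?_ (one_dvd _)
    have h1 := (h.rl.b hf b hb).1
    have e : (((-1 : ℚ)) : ℂ) = -1 := by
      push_cast
      rfl
    rw [e]
    exact h1
  · have h1 := hF (noOrder_of hf h he' hn) _ (TW.isTw_shift hχ h he' hR)
    have h2 := congrArg (shR (-(κ : ℂ))) h1
    rwa [shR_shR, map_zero] at h2

end

/-- **The holomorphy conjecture is a vanishing statement, and cubic polynomials suffice.** Let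
`χ : 𝓜 → ℂ` be a ring homomorphism with `χ(𝕃) = 1` and `e ≥ 1`.
(1) A twisted topological zeta function `R = Z^(e)_top` of any polynomial `f` is a polynomial in `s` if and
only if `R = 0`.
(2) For every non-constant `f` in `n` variables there are `κ` and a non-constant cubic `F` with `Cub F` in
`n + 2 κ` variables, the same for all `e`, such that for all `e ≥ 1`: if `Z^(e)` vanishes for `F`, or if
some monodromy eigenvalue of `F` has order divisible by `e`, then the same holds for `f`.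
(3) Q1 for all non-constant polynomials is equivalent to the vanishing of `Z^(e)_top` for all non-constant
`f` with `Cub f` of which no monodromy eigenvalue has order divisible by `e`. -/
theorem result (χ : MK ℂ →+* ℂ) (hχ : χ ((Lu ℂ : (MK ℂ)ˣ) : MK ℂ) = 1) :
    (∀ (n : ℕ) (f : MvPolynomial (Fin n) ℂ) (e : ℕ), 1 ≤ e → ∀ R : RatFunc ℂ,
      IsTwTopZeta χ f e R →
        ((∃ p : Polynomial ℂ, R = algebraMap (Polynomial ℂ) (RatFunc ℂ) p) ↔ R = 0)) ∧
    (∀ (n : ℕ) (f : MvPolynomial (Fin n) ℂ), f.totalDegree ≠ 0 →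
      ∃ (κ m : ℕ) (F : MvPolynomial (Fin m) ℂ), m = n + 2 * κ ∧ Cub F ∧ F.totalDegree ≠ 0 ∧
        ∀ e, 1 ≤ e → Vanishing χ e F → Vanishing χ e f) ∧
    ∀ e, 1 ≤ e →
      ((∀ (n : ℕ) (f : MvPolynomial (Fin n) ℂ), f.totalDegree ≠ 0 → Q1 χ e f) ↔
      ∀ (n : ℕ) (f : MvPolynomial (Fin n) ℂ), Cub f → f.totalDegree ≠ 0 → Vanishing χ e f) := by
  refine ⟨fun n f e he R hR => polynomial_iff he hR, fun n f hf => ?_,
    fun e he => ⟨fun h n f _ hf => (vanishing_iff he).1 (h n f hf), fun h n f hf => ?_⟩⟩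
  · obtain ⟨κ, m, F, hm, hF, hl⟩ := TW.exists_cubic_tw f
    exact ⟨κ, m, F, hm, hF, hl.rl.deg hf, fun e he => vanishing_of hχ hf hl he⟩
  · obtain ⟨κ, m, F, -, hF, hl⟩ := TW.exists_cubic_tw f
    exact (vanishing_iff he).2 (vanishing_of hχ hf hl he (h m F hF (hl.rl.deg hf)))

end Pool.Agent.Results.MP_ed311f_ag.VanishingForCubics
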